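import Pool.Agent.Helper74.NM.Base
import Pool.Agent.Helper74.DR.Defs

/-!
# Project NM (MP_26f0da_lc): definitions and simple facts

THEOREM.  There is a symmetric relation `R` on a finite set of letters such that the words which have
a noncrossing perfect matching of related letters form a hardest context-free language.

A directed relation `P` is used (`P a b`: `a` opens, `b` closes); `R a b` is `P a b ∨ P b a`.
Stacks are lists of letters, top first.
-/

set_option autoImplicit false

namespace Pool.Agent.Helper74.NM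

section

variable {G : Type} (P : G → G → Prop) (op : G → Prop)

/-- Reading the word `w` changes the stack `σ` into `τ`: a letter `a` with `op a` may be pushed, a
letter `a` may pop a letter `x` with `P x a`. -/
def Tr : List G → List G → List G → Prop
  | [], σ, τ => σ = τ
  | a :: w, σ, τ => (op a ∧ Tr w (a :: σ) τ) ∨ ∃ x σ', σ = x :: σ' ∧ P x a ∧ Tr w σ' τ

/-- `Dead y w σ`: during the reading of `w` from the stack `σ`, whenever the stack is empty the next
letter `a` does not satisfy `P a y`. -/
def Dead (y : G) : List G → List G → Prop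
  | [], _ => True
  | a :: w, σ => (σ = [] → ¬ P a y) ∧ (op a → Dead y w (a :: σ)) ∧
      ∀ x σ', σ = x :: σ' → P x a → Dead y w σ'

theorem tr_nil (σ τ : List G) : Tr P op [] σ τ ↔ σ = τ := Iff.rfl

theorem tr_cons (a : G) (w σ τ : List G) : Tr P op (a :: w) σ τ ↔
    (op a ∧ Tr P op w (a :: σ) τ) ∨ ∃ x σ', σ = x :: σ' ∧ P x a ∧ Tr P op w σ' τ := Iff.rfl

theorem tr_append (w₁ w₂ σ τ : List G) :
    Tr P op (w₁ ++ w₂) σ τ ↔ ∃ ρ, Tr P op w₁ σ ρ ∧ Tr P op w₂ ρ τ := by
  induction w₁ generalizing σ with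
  | nil => simp [tr_nil]
  | cons a w ih =>
    rw [List.cons_append, tr_cons]
    simp only [tr_cons, ih]
    constructor
    · rintro (⟨h, ρ, h1, h2⟩ | ⟨x, σ', hσ, hx, ρ, h1, h2⟩)
      · exact ⟨ρ, Or.inl ⟨h, h1⟩, h2⟩
      · exact ⟨ρ, Or.inr ⟨x, σ', hσ, hx, h1⟩, h2⟩
    · rintro ⟨ρ, ⟨h, h1⟩ | ⟨x, σ', hσ, hx, h1⟩, h2⟩
      · exact Or.inl ⟨h, ρ, h1, h2⟩
      · exact Or.inr ⟨x, σ', hσ, hx, ρ, h1, h2⟩

theorem dead_nil (y : G) (σ : List G) : Dead P op y [] σ := trivial

theorem dead_cons (y a : G) (w σ : List G) : Dead P op y (a :: w) σ ↔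
    (σ = [] → ¬ P a y) ∧ (op a → Dead P op y w (a :: σ)) ∧
      ∀ x σ', σ = x :: σ' → P x a → Dead P op y w σ' := Iff.rfl

theorem dead_append (y : G) (w₁ w₂ σ : List G) : Dead P op y (w₁ ++ w₂) σ ↔
    Dead P op y w₁ σ ∧ ∀ τ, Tr P op w₁ σ τ → Dead P op y w₂ τ := by
  induction w₁ generalizing σ with
  | nil => simp [tr_nil, dead_nil]
  | cons a w ih =>
    rw [List.cons_append, dead_cons, dead_cons]
    simp only [tr_cons, ih]
    constructor
    · rintro ⟨h1, h2, h3⟩
      refine ⟨⟨h1, fun h => (h2 h).1, fun x σ' h h' => (h3 x σ' h h').1⟩, ?_⟩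
      rintro τ (⟨h, ht⟩ | ⟨x, σ', hσ, hx, ht⟩)
      · exact (h2 h).2 τ ht
      · exact (h3 x σ' hσ hx).2 τ ht
    · rintro ⟨⟨h1, h2, h3⟩, h4⟩
      exact ⟨h1, fun h => ⟨h2 h, fun τ ht => h4 τ (Or.inl ⟨h, ht⟩)⟩,
        fun x σ' h h' => ⟨h3 x σ' h h', fun τ ht => h4 τ (Or.inr ⟨x, σ', h, h', ht⟩)⟩⟩

/-- Splitting of a `flatMap` at a position. -/
theorem flatMap_split {A B : Type} (h : A → List B) (w : List A) (p : List B) (y : B)
    (q : List B) (e : w.flatMap h = p ++ y :: q) :
    ∃ (w₁ : List A) (a : A) (w₂ : List A) (p' r : List B), w = w₁ ++ a :: w₂ ∧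
      h a = p' ++ y :: r ∧ p = w₁.flatMap h ++ p' ∧ q = r ++ w₂.flatMap h := by
  induction w generalizing p with
  | nil => simp at e
  | cons a w ih =>
    rw [List.flatMap_cons] at e
    rcases List.append_eq_append_iff.1 e with ⟨a', h1, h2⟩ | ⟨c', h1, h2⟩
    · obtain ⟨w₁, b, w₂, p', r, e1, e2, e3, e4⟩ := ih a' h2
      exact ⟨a :: w₁, b, w₂, p', r, by rw [e1]; rfl, e2, by rw [h1, e3]; simp, e4⟩
    · rcases c' with _ | ⟨c, c'⟩
      · simp only [List.nil_append] at h2
        obtain ⟨w₁, b, w₂, p', r, e1, e2, e3, e4⟩ := ih [] (by simpa using h2.symm)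
        refine ⟨a :: w₁, b, w₂, p', r, by rw [e1]; rfl, e2, ?_, e4⟩
        simp only [List.append_nil] at h1
        rw [← h1]
        have := e3
        simp only [List.flatMap_cons, List.append_assoc, ← this, List.append_nil]
      · simp only [List.cons_append, List.cons.injEq] at h2
        obtain ⟨rfl, h2⟩ := h2
        exact ⟨[], a, w, p, c', by simp, h1, by simp, h2⟩

end

/-! ### The letters -/

/-- Stack letters: the lower letter `c r` of a cell (`r` the rank of its symbol), the upper letter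
`s X` of the cell of the symbol `X`, the flags `b false` (no step in this block so far), `b true`. -/
inductive Zt (W : Type) : Type
  | c (r : Bool) : Zt W
  | s (X : W) : Zt W
  | b (i : Bool) : Zt W

/-- The letters: `o z` pushes the stack letter `z`, `k z` pops it; the letters of the gadget of the
rule `g`. -/
inductive Lt (W : Type) : Type
  | o (z : Zt W) : Lt W
  | k (z : Zt W) : Lt W
  | x (g : W × List W) : Lt W
  | y (g : W × List W) : Lt W
  | f1 (g : W × List W) : Lt W
  | f2 (g : W × List W) : Lt W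
  | f3 (g : W × List W) : Lt W
  | e (g : W × List W) (j : ℕ) : Lt W

section

variable {W : Type} (rk : W → Bool)

/-- The word which the gadget of `g` pushes (top first). -/
def Us (g : W × List W) : List (Zt W) := .b true :: g.2.flatMap fun X => [.s X, .c (rk X)]

/-- The word which the gadget of `g` pops (top first). -/
def Zs (g : W × List W) : List (Zt W) := [.b false, .s g.1, .c (rk g.1)]

/-- The directed relation. -/
def P : Lt W → Lt W → Prop
  | .o z, .k z' => z = z'
  | .x g, .y g' => g = g'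
  | .x g, .f3 g' => g = g'
  | .f1 g, .f2 g' => g = g'
  | .f3 _, .k z => z = .b false
  | .f2 g, .k z => z = .s g.1
  | .f1 g, .k z => z = .c (rk g.1)
  | .o z, .e g j => (Us rk g)[j]? = some z
  | .e g j, .y g' => g = g' ∧ j = 0
  | .e g j, .e g' j' => g = g' ∧ j' = j + 1 ∧ Odd j
  | _, _ => False

/-- The letters which may open. -/
def op : Lt W → Prop
  | .o _ => True
  | .x _ => True
  | .f1 _ => True
  | .f2 _ => True
  | .f3 _ => True
  | .e _ j => j = 0 ∨ Odd j
  | _ => False

theorem p_op (a b : Lt W) (h : P rk a b) : op a := by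
  cases a <;> cases b <;> simp_all [P, op]

theorem not_p_o (a : Lt W) (z : Zt W) : ¬ P rk a (.o z) := by
  cases a <;> simp [P]

theorem not_p_x (a : Lt W) (g : W × List W) : ¬ P rk a (.x g) := by
  cases a <;> simp [P]

theorem not_p_f1 (a : Lt W) (g : W × List W) : ¬ P rk a (.f1 g) := by
  cases a <;> simp [P]

/-- Gadget `A`: pushes `x g` or pops `Zs g`. -/
def gA (g : W × List W) : List (Lt W) :=
  [.x g, .f1 g, .f2 g, .f3 g, .k (.b false), .k (.s g.1), .k (.c (rk g.1))]

/-- Gadget `B`: pushes `Us g` or pops `x g`. -/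
def gB (g : W × List W) : List (Lt W) :=
  ((Us rk g).reverse.map .o) ++ (((List.range (Us rk g).length).map (.e g)) ++ [.y g])

/-- The gadget of the rule `g`. -/
def gd (g : W × List W) : List (Lt W) := gA rk g ++ gB rk g

/-- The block of the list `l` of rules. -/
def blk (l : List (W × List W)) : List (Lt W) :=
  .o (.b false) :: (l.flatMap (gd rk) ++ [.k (.b true)])

/-- The cells of a machine stack. -/
def cells (s : List W) : List (Lt W) := s.flatMap fun X => [.o (.s X), .o (.c (rk X))]

/-- The configuration inside a block. -/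
def N (i : Bool) (s : List W) : List (Lt W) := .o (.b i) :: cells rk s

/-- Stacks of letters `o z` and `x g`. -/
def clean (σ : List (Lt W)) : Prop := ∀ a ∈ σ, (∃ z, a = .o z) ∨ ∃ g, a = .x g

/-- The condition on the rules. -/
def Rc (g : W × List W) : Prop := ∀ z ∈ g.2.getLast?, rk g.1 = true ∧ rk z = false

/-- Bad stacks between the blocks: they cannot be emptied. -/
def BadOut (σ : List (Lt W)) : Prop := ∃ (s : List W) (g : W × List W) (σ₁ : List (Lt W)),
  σ = cells rk s ++ .x g :: σ₁ ∧ clean σ₁ ∧ ∀ z ∈ s.getLast?, rk g.1 = true ∧ rk z = false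

/-- Bad stacks inside the blocks. -/
def BadIn (σ : List (Lt W)) : Prop := ∃ (i : Bool) (σ' : List (Lt W)),
  σ = .o (.b i) :: σ' ∧ BadOut rk σ'

theorem us_map (g : W × List W) : (Us rk g).map Lt.o = N rk true g.2 := by
  simp [Us, N, cells, List.map_flatMap]

theorem us_length (g : W × List W) : (Us rk g).length = 2 * g.2.length + 1 := by
  simp [Us, List.length_flatMap]
  ring

theorem cells_append (s t : List W) : cells rk (s ++ t) = cells rk s ++ cells rk t := by
  simp [cells]

theorem clean_cells (s : List W) : clean (cells rk s) := by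
  intro a ha
  simp only [cells, List.mem_flatMap, List.mem_cons, List.not_mem_nil, or_false] at ha
  obtain ⟨X, _, rfl | rfl⟩ := ha
  · exact Or.inl ⟨_, rfl⟩
  · exact Or.inl ⟨_, rfl⟩

theorem clean_cons_o (z : Zt W) (σ : List (Lt W)) (h : clean σ) : clean (.o z :: σ) := by
  intro a ha
  rcases List.mem_cons.1 ha with rfl | ha
  · exact Or.inl ⟨_, rfl⟩
  · exact h a ha

theorem clean_cons_x (g : W × List W) (σ : List (Lt W)) (h : clean σ) : clean (.x g :: σ) := by
  intro a ha
  rcases List.mem_cons.1 ha with rfl | ha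
  · exact Or.inr ⟨_, rfl⟩
  · exact h a ha

theorem clean_append (σ τ : List (Lt W)) (h : clean σ) (h' : clean τ) : clean (σ ++ τ) := by
  intro a ha
  rcases List.mem_append.1 ha with ha | ha
  · exact h a ha
  · exact h' a ha

theorem clean_nil : clean ([] : List (Lt W)) := by
  intro a ha
  simp at ha

theorem clean_N (i : Bool) (s : List W) : clean (N rk i s) :=
  clean_cons_o _ _ (clean_cells rk s)

theorem clean_badOut (σ : List (Lt W)) (h : BadOut rk σ) : clean σ := by
  obtain ⟨s, g, σ₁, rfl, h1, _⟩ := h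
  exact clean_append _ _ (clean_cells rk s) (clean_cons_x _ _ h1)

theorem clean_badIn (σ : List (Lt W)) (h : BadIn rk σ) : clean σ := by
  obtain ⟨i, σ', rfl, h1⟩ := h
  exact clean_cons_o _ _ (clean_badOut rk σ' h1)

end

end Pool.Agent.Helper74.NM
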