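import Pool.Agent.Helper74.NM.Defs

/-!
# Project NM (MP_26f0da_lc): module statements

THEOREM.  There are `n` and a SYMMETRIC relation `R` on `Fin n` such that `{w | NC R w}` (the words with a
noncrossing perfect matching of related letters) is a hardest context-free language: context-free,
every context-free language `K` is reduced to it by `w ↦ u h(w) v`, and every context-free language
is in `L` iff it is in `L`.

Plan.  Part 1 (TRN, DEC, TRF, CFN): general facts.  Part 2 (GA, GB, STP, BLK, RUN, COM): the one-sided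
simulation of a machine: `Tr (P rk) op`.  Part 3 (LOC, DAB, DBD, DCC, DHH, DYY, ALL): pairs in the
wrong order do not occur.  Part 4 (SIM, SYF): assembly.  The universality comes from
`MP_26f0da_lc.DyckWithJokers` (project DR).

The lemmas of `Defs.lean` may be used: `tr_nil`, `tr_cons`, `tr_append`, `dead_nil`, `dead_cons`,
`dead_append`, `flatMap_split`, `p_op`, `not_p_o`, `not_p_x`, `not_p_f1`, `us_map`, `us_length`,
`cells_append`, `clean_cells`, `clean_cons_o`, `clean_cons_x`, `clean_append`, `clean_nil`, `clean_N`,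
`clean_badOut`, `clean_badIn`.  For each `StX` the module proves `theorem hX : StX` from the listed
statements.
-/

set_option autoImplicit false

namespace Pool.Agent.Helper74.NM

/-! ## Part 1: general facts -/

/-- TRN (about 80 lines).  Matchings and stacks.

Proof.  (→) For `NC P w` and every `σ`: `Tr P op w σ σ`, by induction on `NC`: `wrap x y u v`: `x` is pushed
(`op x`), `Tr u (x :: σ) (x :: σ)`, `y` pops `x`, `Tr v σ σ` (`tr_append`).
(←) `Tr P op w σ []` implies `Sg w σ`, where `Sg w [] ↔ NC P w` and
`Sg w (x :: σ) ↔ ∃ d y w₁, w = d ++ y :: w₁ ∧ NC P d ∧ P x y ∧ Sg w₁ σ`: induction on `w` for all `σ`.  Pop of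
`x` by `a`: `σ = x :: σ'`, `Sg w σ'`: `d = []`.  Push of `a`: `Sg w (a :: σ)`: `w = d ++ y :: w₁`, `P a y`,
`Sg w₁ σ`: if `σ = []` then `NC.wrap`; if `σ = x :: σ'` then `w₁ = d' ++ y' :: w₂` and
`a :: (d ++ y :: d')` has a matching.  Hypotheses: none. -/
def StTRN : Prop := ∀ (G : Type) (P : G → G → Prop) (op : G → Prop), (∀ a b, P a b → op a) →
  ∀ w : List G, NC P w ↔ Tr P op w [] []

/-- DEC (about 90 lines).  Pairs in the wrong order.

Proof.  Claim: if `NC (P or P reversed) w` then `NC P w` or there are `p y s x q` with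
`w = p ++ y :: (s ++ x :: q)`, `NC P s` and `P x y`.  Induction on `NC`: `nil`: left.  `wrap a b u v`: if `u` or
`v` has such a factor, so has the whole word; otherwise `NC P u`, `NC P v`; if `P a b`: `NC P`; if `P b a`: the
factor with `p = []`, `y = a`, `s = u`, `x = b`.  In the second case `Dead P op y (s ++ x :: q) []` by
hypothesis, `Tr P op s [] []` by hTRN, so `dead_append` and `dead_cons` (empty stack) give `¬ P x y`.  In the
first case hTRN.  Hypotheses: hTRN. -/
def StDEC : Prop := ∀ (G : Type) (P : G → G → Prop) (op : G → Prop), (∀ a b, P a b → op a) →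
  ∀ w : List G, (∀ (p : List G) (y : G) (w' : List G), w = p ++ y :: w' → Dead P op y w' []) →
    NC (fun a b => P a b ∨ P b a) w → Tr P op w [] []

/-- TRF (about 90 lines).  Finitely many letters.

Proof.  `F` is finite: let `n = F.ncard + 1` and `d : G → Fin n` injective on `F` (for example from
`hF.toFinset.equivFin`, with the value `0` or the last element outside `F`).
`R' i j ↔ ∃ x ∈ F, ∃ y ∈ F, d x = i ∧ d y = j ∧ R x y`.  (→) Induction on `NC R w`.  (←) Induction on `NC R' w'`
for all `w` over `F` with `w' = w.map d`: a list `w` with `w.map d = i :: (u' ++ j :: v')` is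
`x :: (u ++ y :: v)` (`List.map_eq_cons_iff`, `List.map_eq_append_iff`); `R' (d x) (d y)` gives `R x y` by
injectivity on `F`.  Hypotheses: none. -/
def StTRF : Prop := ∀ (G : Type) (R : G → G → Prop) (F : Set G), F.Finite →
  ∃ (n : ℕ) (R' : Fin n → Fin n → Prop) (d : G → Fin n),
    ((∀ x y, R x y → R y x) → ∀ i j, R' i j → R' j i) ∧
    ∀ w : List G, (∀ x ∈ w, x ∈ F) → (NC R w ↔ NC R' (w.map d))

/-- CFN (about 120 lines).  The language `{w | NC R w}` is context-free.

Proof.  Grammar with one nonterminal `S` (`NT = Unit`), rules `S → []` and `S → x S y S` for the pairs with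
`R x y` (finitely many: `Set.Finite.toFinset`).  `hPRS` of project DR (file
`Pool/Agent/Helper36/DR/M_PRS.lean`, theorem `Pool.Agent.Helper36.DR.hPRS`; the relation `Pr` is in
`Pool.Agent.Helper74.DR`): the language is `{w | ∃ n, Pr g n [S] w}`.  Copy the module
`Pool/Agent/Helper62/DR/M_CFP.lean` (the same proof for the language `PD T`), which is simpler here:
(⊆) induction on `NC`; (⊇) `Sub s w` for a list `s` of symbols, where a nonterminal stands for a word
with `NC R`.  Hypotheses: none (import the PRS module and use it). -/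
def StCFN : Prop := ∀ (n : ℕ) (R : Fin n → Fin n → Prop),
  ∃ g : ContextFreeGrammar (Fin n), ∀ w, w ∈ g.language ↔ NC R w

/-! ## Part 2: the one-sided simulation -/

/-- GA (about 90 lines).  Gadget `A`.

Proof.  `gA = x, f1, f2, f3, k (b false), k (s X), k (c (rk X))`.  (1) `x`, `f1`, `f2`, `f3` are pushed; then
`k (b false)` pops `f3`, `k (s X)` pops `f2`, `k (c ..)` pops `f1`.  (2) `x`, `f1` are pushed, `f2` pops `f1`, `f3`
pops `x`, then the three closing letters pop `Zs`.  (3) `x`, `f1` can only be pushed (`not_p_x`, `not_p_f1`).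
`f2` is pushed or pops the top `f1`.  If it is pushed, then `f3` can only be pushed (`P (f2 ..) (f3 ..)` is false),
and the closing letters, which are not in `op`, pop `f3`, `f2`, `f1`: left alternative.  If it pops `f1`, the top is
`x`: `f3` pushed: then `k (b false)` pops `f3` and `k (s X)` cannot pop `x`: impossible.  `f3` pops `x`: the stack is
`σ`, three closing letters pop three letters of `σ`; the letters of a clean stack are `o z`, `x g`, and
`P (x ..) (k ..)` is false, `P (o z) (k z')` iff `z = z'`: right alternative.  Hypotheses: none. -/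
def StGA : Prop := ∀ (W : Type) (rk : W → Bool) (g : W × List W) (σ : List (Lt W)),
  Tr (P rk) op (gA rk g) σ (.x g :: σ) ∧
  Tr (P rk) op (gA rk g) ((Zs rk g).map .o ++ σ) σ ∧
  (clean σ → ∀ τ, Tr (P rk) op (gA rk g) σ τ → τ = .x g :: σ ∨ σ = (Zs rk g).map .o ++ τ)

/-- GB (about 150 lines).  Gadget `B`.

Let `U = Us rk g`, of length `k = 2 n + 1`.  The word is: `o z` for `z` in `U.reverse`, then
`e g 0, .., e g (k - 1)`, then `y g`.  The letters `o z` can only be pushed (`not_p_o`); the stack is then
`U.map o ++ σ`.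
(1) `e g j` pops `U[j]` for all `j`, `y g` pops `x g`.  (2) `e g 0` is pushed; for `i = 1, .., n` the letter
`e g (2 i - 1)` is pushed and `e g (2 i)` pops it; `y g` pops `e g 0`.
(3) If `e g 0` is pushed: the stack is `e g 0 :: ρ`; by induction each pair `e g (2 i - 1)`, `e g (2 i)` leaves
the stack `e g 0 :: ρ` unchanged (`e g (2 i - 1)` cannot pop `e g 0`; `e g (2 i)` is not in `op` and pops the top
`e g (2 i - 1)`), and `y g` pops `e g 0` (it is not in `op`): left alternative.  If `e g 0` pops the top of
`U.map o ++ σ`: claim: if the stack is `V.map o ++ σ` with `V` a list of length `2 m`, `m ≥ r`, and the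
remaining word is `e g (k - 2 r), .., e g (k - 1), y g`, then `V` has length `2 r` and `σ = x g :: τ`, where
`τ` is the final stack.  Induction on `r`: `r = 0`: `y g` pops the top; `P (o z) (y g)` is false, so `V = []`, and the
top of the clean stack `σ` is `x g`.  `r + 1`: the first letter (odd index) is pushed, then the second pops it
(it is not in `op`), `V` unchanged and `m ≥ r`; the induction hypothesis says that `V` has length `2 r`,
contradiction to `m ≥ r + 1`; or it pops the first letter of `V` (`V ≠ []`) and the second letter pops the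
second letter of `V`: the rest has length `2 (m - 1)`.  Apply it with `r = m = n`.
Hypotheses: none. -/
def StGB : Prop := ∀ (W : Type) (rk : W → Bool) (g : W × List W) (σ : List (Lt W)),
  Tr (P rk) op (gB rk g) (.x g :: σ) σ ∧
  Tr (P rk) op (gB rk g) σ ((Us rk g).map .o ++ σ) ∧
  (clean σ → ∀ τ, Tr (P rk) op (gB rk g) σ τ → τ = (Us rk g).map .o ++ σ ∨ σ = .x g :: τ)

/-- STP (about 120 lines).  One gadget in a configuration.

Proof.  `gd = gA ++ gB`, `tr_append`, hGA (3), hGB (3), `us_map`; all stacks are clean.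
(1) `N i s`.  After `A`: `x g :: N i s`: after `B`: `N true γ ++ x g :: N i s`, which is in `BadIn` (`Rc`), or
`N i s`.  Or `N i s = Zs ++ τ₁` (`γ = g.2`): so `i = false`, `s = g.1 :: s'`, `τ₁ = cells s'`; after `B`:
`N true γ ++ cells s' = N true (γ ++ s')`, or `cells s' = x g :: τ`, impossible.
(2) `σ = o (b i) :: (cells s ++ x g₀ :: σ₁)`.  After `A`: `x g :: σ`: `BadIn` or `σ` as in (1).  Or
`σ = Zs ++ τ₁`: `s = []` is impossible (`x g₀` is not `o ..`), so `s = g.1 :: s'`,
`τ₁ = cells s' ++ x g₀ :: σ₁`.  After `B`: `N true (γ ++ s') ++ x g₀ :: σ₁`: `BadIn`, the condition for the last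
symbol of `γ ++ s'`: if `s' ≠ []` it is the last symbol of `s`; if `s' = []` it is the last symbol of `γ`, then
`rk g.1 = true` by `Rc`, but `g.1` is the last symbol of `s`, so `rk g.1 = false`, contradiction.  Or
`τ₁ = x g :: τ`: then `s' = []`, `g₀ = g`, `s = [g.1]`, and the condition says `rk g.1 = true` and
`rk g.1 = false`, contradiction.
(3) From `[]`: after `A`: `[x g]`; after `B`: `N true γ ++ [x g]` (`BadIn`) or `[]`.
Hypotheses: hGA hGB. -/
def StSTP : Prop := ∀ (W : Type) (rk : W → Bool) (g : W × List W), Rc rk g →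
  (∀ i s τ, Tr (P rk) op (gd rk g) (N rk i s) τ → τ = N rk i s ∨
    (i = false ∧ ∃ s', s = g.1 :: s' ∧ τ = N rk true (g.2 ++ s')) ∨ BadIn rk τ) ∧
  (∀ σ τ, BadIn rk σ → Tr (P rk) op (gd rk g) σ τ → BadIn rk τ) ∧
  (∀ τ, Tr (P rk) op (gd rk g) [] τ → τ = [] ∨ BadIn rk τ)

/-- BLK (about 110 lines).  One block in a configuration.

Proof.  The first letter `o (b false)` is pushed (`not_p_o`): from `cells s` to `N false s`, from `BadOut` to
`BadIn`.  Then induction on the list `l` with hSTP: from `N false s` the gadgets lead to `N false s`, or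
`N true (γ ++ s')` with `g ∈ l`, `s = g.1 :: s'`, or `BadIn`; from `N true s'` to `N true s'` or `BadIn`; from
`BadIn` to `BadIn`.  The last letter `k (b true)` is not in `op` and pops the top `o (b i)`, so `i = true`.
Hypotheses: hSTP. -/
def StBLK : Prop := ∀ (W : Type) (rk : W → Bool) (l : List (W × List W)), (∀ g ∈ l, Rc rk g) →
  (∀ s τ, Tr (P rk) op (blk rk l) (cells rk s) τ →
    (∃ g ∈ l, ∃ s', s = g.1 :: s' ∧ τ = cells rk (g.2 ++ s')) ∨ BadOut rk τ) ∧
  (∀ σ τ, BadOut rk σ → Tr (P rk) op (blk rk l) σ τ → BadOut rk τ)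

/-- RUN (about 60 lines).  Soundness of the one-sided simulation.

Proof.  From `BadOut` the word `w.flatMap blk` does not lead to `[]` (induction on `w`, hBLK, a `BadOut` stack
is not empty).  Induction on `w` for all `s`: `w = []`: `cells s = []`, so `s = []`, `Acc.nil`; `a :: w`: hBLK.
Hypotheses: hBLK. -/
def StRUN : Prop := ∀ (α W : Type) (rk : W → Bool) (l : α → List (W × List W)),
  (∀ a, ∀ g ∈ l a, Rc rk g) → ∀ (w : List α) (s : List W),
    Tr (P rk) op (w.flatMap fun a => blk rk (l a)) (cells rk s) [] →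
      DR.Acc (fun a X γ => (X, γ) ∈ l a) s w

/-- COM (about 90 lines).  Completeness of the one-sided simulation.

Proof.  Induction on `Acc`.  `step a X γ s w`: `o (b false)` is pushed; write `l a = l₁ ++ (X, γ) :: l₂`
(`List.append_of_mem`); the gadgets of `l₁` and `l₂` are skipped: `Tr (gd g) σ σ` by hGA (1), hGB (1) for
every `σ`; the gadget of `(X, γ)`: hGA (2) with `N false (X :: s) = Zs.map o ++ cells s`, hGB (2):
`Us.map o ++ cells s = N true (γ ++ s)`; `k (b true)` pops `o (b true)`.  Hypotheses: hGA hGB. -/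
def StCOM : Prop := ∀ (α W : Type) (rk : W → Bool) (l : α → List (W × List W)) (s : List W)
  (w : List α), DR.Acc (fun a X γ => (X, γ) ∈ l a) s w →
    Tr (P rk) op (w.flatMap fun a => blk rk (l a)) (cells rk s) []

/-! ## Part 3: no pairs in the wrong order -/

/-- LOC (about 90 lines).  Local cases.

Proof.  (1) Induction on `w`.  (2) `¬ P a y` by `p_op`; `a` is not pushed; the stack is empty, so no pop.
(3) `¬ P (f3 ..) (f2 ..)`; `f3` is pushed; `k (b false)`: the stack is not empty, it is not pushed, it pops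
`f3`; then (2) with `k (s ..)`.  (4) By induction on the number of remaining letters, with the statement
for the remaining letters `e g (j + 1), .., e g (k - 1)`, `k = 2 n + 1` (`us_length`).  `j = k - 1`: (2) with `y g`.
`j` odd: then `j + 1 < k` is even and at least `2`, so `e g (j + 1)` is not in `op`: (2).  `j` even, `j < k - 1`:
`¬ P (e g (j + 1)) (e g j)`; `e g (j + 1)` is pushed; `e g (j + 2)` (not in `op`) pops it; now the stack is empty and
the remaining letters are `e g (j + 3), ..`.  For this prove more generally: for all `i` with `2 i < k` and all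
`y'` of the form `e g j`, `j ≤ 2 i`: `Dead (e g j) ((List.range k).drop (2 i + 1) ++ y g :: w) []` by induction on
`n - i` (`¬ P (e g (2 i + 1)) (e g j)` because `j = 2 i + 2` is impossible).  Hypotheses: none. -/
def StLOC : Prop := ∀ (W : Type) (rk : W → Bool),
  (∀ (y : Lt W), (∀ a, ¬ P rk a y) → ∀ w σ, Dead (P rk) op y w σ) ∧
  (∀ (y a : Lt W) (w : List (Lt W)), ¬ op a → Dead (P rk) op y (a :: w) []) ∧
  (∀ (g : W × List W) (w : List (Lt W)),
    Dead (P rk) op (.f2 g) (.f3 g :: .k (.b false) :: .k (.s g.1) :: w) []) ∧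
  (∀ (g : W × List W) (j : ℕ) (w : List (Lt W)), j < (Us rk g).length →
    Dead (P rk) op (.e g j)
      ((((List.range (Us rk g).length).drop (j + 1)).map (.e g)) ++ .y g :: w) [])

/-- DAB (about 100 lines).  The gadgets from a stack which is not empty.

Proof.  General: a letter `a` with `¬ op a` satisfies `¬ P a y` (`p_op`).  (1) `gA`: `x`: condition; pushed
(`not_p_x`), `f1`: stack not empty, pushed (`not_p_f1`): the stack is `f1 :: x :: σ`; `f2`: stack not empty,
afterwards the stack is `f2 :: f1 :: x :: σ` or `x :: σ`; `f3`: stack not empty; then only letters not in `op`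
follow (lemma: if no letter of `w` is in `op` then `Dead y w σ` for all `σ`).
(2) `gB`: the letters `o z`: the first is `o z` with `z` the last of `Us` (`Us ≠ []`), by the condition; then the
stack is not empty; all are pushed.  Afterwards the stack has at least `k = (Us rk g).length` letters, and
`k` letters `e g j` and `y g` follow.  Lemma: if `m ≤ σ.length`, `w` has length `m` and `a` is not in `op` then
`Dead y (w ++ [a]) σ` (induction on `m`).  Hypotheses: none. -/
def StDAB : Prop := ∀ (W : Type) (rk : W → Bool) (y : Lt W) (g : W × List W) (σ : List (Lt W)),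
  ((σ = [] → ¬ P rk (.x g) y) → Dead (P rk) op y (gA rk g) σ) ∧
  ((σ = [] → ∀ z, (Us rk g).getLast? = some z → ¬ P rk (.o z) y) →
    Dead (P rk) op y (gB rk g) σ)

/-- DBD (about 110 lines).  Bad stacks are never emptied.

Proof.  Induction on `w`; for fixed `w` first the statement (1) by induction on `m`, from (2) for `w`; then (2)
for `a :: w` from (1).  (1) `m = []`: `k (b true)`: the stack is not empty, it is not in `op`, it pops `o (b i)`, so
`i = true` and the rest is `BadOut`: (2).  `g :: m`: `dead_append` twice (`gd = gA ++ gB`): `gA`: hDAB, the stack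
is not empty; after `gA` (hGA (3)) the stack is `x g :: σ` or `τ` with `σ = Zs ++ τ`, `τ ≠ []` because `σ` is
`o (b i) :: (cells s ++ x g₀ :: σ₁)` and `x g₀` is not among the first three letters unless .. (`Zs.map o` has
only letters `o ..`, so `x g₀` is in `τ`); so hDAB for `gB`; after `gd` the stack is `BadIn` by hSTP.
(2) `w = []`: trivial.  `a :: w`: `o (b false)`: the stack is not empty; it is pushed and gives `BadIn`; then (1)
with `m = l a`.  Hypotheses: hGA hSTP hDAB. -/
def StDBD : Prop := ∀ (α W : Type) (rk : W → Bool) (l : α → List (W × List W)),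
  (∀ a, ∀ g ∈ l a, Rc rk g) → ∀ (y : Lt W) (w : List α),
  (∀ (m : List (W × List W)) (σ : List (Lt W)), (∀ g ∈ m, Rc rk g) → BadIn rk σ →
    Dead (P rk) op y
      (m.flatMap (gd rk) ++ .k (.b true) :: w.flatMap fun a => blk rk (l a)) σ) ∧
  (∀ σ : List (Lt W), BadOut rk σ → Dead (P rk) op y (w.flatMap fun a => blk rk (l a)) σ)

/-- DCC (about 130 lines).  The letter `k (c r)`.

Proof.  As DBD.  (1), `m = []`: `k (b true)` pops `o (b i)`, `i = true`, the rest is `cells s`: (2).  `g :: m`: the
stack `N i s` is not empty: hDAB for `gA`.  After `gA`: `x g :: N i s`, not empty; or `N i s = Zs ++ τ`: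
`i = false`, `s = g.1 :: s'`, `τ = cells s'`; if `τ = []` then `s' = []`, so by the condition `rk g.1 = false`, hence
`g.2 = []` by `Rc` (otherwise `rk g.1 = true`), `Us = [b true]`, and `¬ P (o (b true)) (k (c r))`: hDAB for `gB`.
After `gd` (hSTP): `N i s` again; or `N true (g.2 ++ s')`, `s = g.1 :: s'`: the condition holds: if `s' ≠ []` same last
symbol; if `s' = []` then `g.2 = []` as before; or `BadIn`: hDBD (1).
(2) `w = []`: trivial.  `a :: w`: `o (b false)`: `¬ P (o (b false)) (k (c r))`; it is pushed: `N false s`: (1).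
Hypotheses: hGA hSTP hDAB hDBD. -/
def StDCC : Prop := ∀ (α W : Type) (rk : W → Bool) (l : α → List (W × List W)),
  (∀ a, ∀ g ∈ l a, Rc rk g) → ∀ (r : Bool) (w : List α),
  (∀ (m : List (W × List W)) (i : Bool) (s : List W), (∀ g ∈ m, Rc rk g) →
    (∀ z ∈ s.getLast?, r = true ∧ rk z = false) →
    Dead (P rk) op (.k (.c r))
      (m.flatMap (gd rk) ++ .k (.b true) :: w.flatMap fun a => blk rk (l a)) (N rk i s)) ∧
  (∀ s : List W, (∀ z ∈ s.getLast?, r = true ∧ rk z = false) →
    Dead (P rk) op (.k (.c r)) (w.flatMap fun a => blk rk (l a)) (cells rk s))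

/-- DHH (about 80 lines).  The letter `k (b true)`.

Proof.  `w = []`: trivial.  `w = a :: w'`: the first letter `o (b false)`: `¬ P (o (b false)) (k (b true))`; it is pushed
(`not_p_o`): the stack `N false []`.  Claim by induction on `m`:
`Dead (k (b true)) (m.flatMap gd ++ k (b true) :: w'') (N false [])`, `w''` the blocks of `w'`.  `m = []`: the
letter `k (b true)` is read with the stack `[o (b false)]`: it is not in `op` and cannot pop: nothing to show.
`g :: m`: `gA` from a nonempty stack: hDAB; after `gA`: `x g :: N false []` (the other alternative of hGA is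
impossible: `N false []` has one letter); `gB`: hDAB; after `gd` (hSTP): `N false []` (`s = []` excludes the
second alternative) or `BadIn`: hDBD (1).  Hypotheses: hGA hSTP hDAB hDBD. -/
def StDHH : Prop := ∀ (α W : Type) (rk : W → Bool) (l : α → List (W × List W)),
  (∀ a, ∀ g ∈ l a, Rc rk g) → ∀ w : List α,
    Dead (P rk) op (.k (.b true)) (w.flatMap fun a => blk rk (l a)) []

/-- DYY (about 80 lines).  The letter `y g₀`.

Proof.  Induction on `m`.  `m = []`: `k (b true)` is not in `op` (LOC (2) or directly).  `g :: m`: `gA` from `[]`: hDAB,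
`¬ P (x g) (y g₀)` because `g ≠ g₀`; after `gA`: `[x g]` (hGA (3); `[] = Zs ++ τ` is impossible); `gB`: hDAB, the
stack is not empty; after `gd` (hSTP (3)): `[]`: induction hypothesis; or `BadIn`: hDBD (1).
Hypotheses: hGA hSTP hDAB hDBD. -/
def StDYY : Prop := ∀ (α W : Type) (rk : W → Bool) (l : α → List (W × List W)),
  (∀ a, ∀ g ∈ l a, Rc rk g) → ∀ (g₀ : W × List W) (w : List α) (m : List (W × List W)),
    (∀ g ∈ m, Rc rk g ∧ g ≠ g₀) →
    Dead (P rk) op (.y g₀)
      (m.flatMap (gd rk) ++ .k (.b true) :: w.flatMap fun a => blk rk (l a)) []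

/-- ALL (about 150 lines).  All positions.

Proof.  Let `h a = blk (l a)`.  Position `y` of `[o (c r), o (s S)] ++ w.flatMap h = p ++ y :: w'`.
(i) In the first two letters: `y = o ..`: `not_p_o`, hLOC (1).  (ii) Otherwise `flatMap_split` (applied to
`w.flatMap h = p₁ ++ y :: w'`): `h a = p' ++ y :: r`, `w' = r ++ w₂.flatMap h`.
`h a = o (b false) :: ((l a).flatMap gd ++ [k (b true)])`.  First letter: hLOC (1).  Last letter: `r = []`, hDHH.
In `(l a).flatMap gd`: `flatMap_split`: `l a = m₁ ++ g :: m₂`, `gd g = p'' ++ y :: r'`,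
`w' = r' ++ (m₂.flatMap gd ++ k (b true) :: w₂.flatMap h)`, and `g ∉ m₂` (`Nodup`).  `gd g = gA ++ gB`.
In `gA`: `x`, `f1`: hLOC (1) (`not_p_x`, `not_p_f1`); `f2`: hLOC (3); `f3`, `k (b false)`, `k (s ..)`: the next letter is
a `k ..`, hLOC (2); `k (c (rk g.1))`: the rest is `gB g ++ ..`: `dead_append`: `gB` from `[]`: hDAB with: the last
letter of `Us` is `b true` if `g.2 = []`, otherwise `c (rk X)`, `X` the last symbol of `g.2`, and by `Rc`
`rk X = false`, `rk g.1 = true`, so `¬ P (o z) (k (c (rk g.1)))`; after `gB` (hGB (3), `clean_nil`) the stack is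
`Us.map o = N true g.2` (`us_map`): hDCC (1) with `r = rk g.1`, the condition is `Rc`.
In `gB`: `o z`: hLOC (1); `e g j`: the rest is `(range k).drop (j + 1)` mapped, `y g`, ..: hLOC (4) (position in
`(List.range k).map (e g)`: the letter number `j` is `e g j`); `y g`: hDYY with `m = m₂`.
Hypotheses: hLOC hDAB hGB hDCC hDHH hDYY. -/
def StALL : Prop := ∀ (α W : Type) (rk : W → Bool) (l : α → List (W × List W)),
  (∀ a, ∀ g ∈ l a, Rc rk g) → (∀ a, (l a).Nodup) → ∀ (r : Bool) (S : W) (w : List α)
    (p : List (Lt W)) (y : Lt W) (w' : List (Lt W)),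
    [.o (.c r), .o (.s S)] ++ (w.flatMap fun a => blk rk (l a)) = p ++ y :: w' →
    Dead (P rk) op y w' []

/-! ## Part 4: assembly -/

/-- SIM (about 90 lines).  The simulation.

Proof.  The set `{p : W × List W | p.2.length ≤ 8}` is finite (`List.finite_length_le`), so there are lists `l a`
without repetitions with `p ∈ l a ↔ Pm a p.1 p.2` (`Set.Finite.toFinset`, `Finset.toList`,
`Finset.nodup_toList`).  `u = [o (c (rk S)), o (s S)]`, `h a = blk (l a)`.  `Acc Pm [S] w` iff
`Tr (w.flatMap h) (cells [S]) []` (hRUN, hCOM) iff `Tr (u ++ w.flatMap h) [] []` (`u` is only pushed).  (→)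
hTRN (`p_op`) gives `NC P`, and `NC` is monotone in the relation (induction).  (←) hDEC with hALL.
Hypotheses: hTRN hDEC hRUN hCOM hALL. -/
def StSIM : Prop := ∀ (α W : Type) [Finite W] (rk : W → Bool) (Pm : α → W → List W → Prop) (S : W),
  (∀ a X γ, Pm a X γ → γ.length ≤ 8 ∧ ∀ y ∈ γ.getLast?, rk X = true ∧ rk y = false) →
  ∃ (u : List (Lt W)) (h : α → List (Lt W)), u ≠ [] ∧ (∀ a, h a ≠ []) ∧
    ∀ w : List α, DR.Acc Pm [S] w ↔ NC (fun a b => P rk a b ∨ P rk b a) (u ++ w.flatMap h)

/-- SYF (about 70 lines).  Context-free languages.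

Proof.  `hNFM : Pool.Agent.Helper74.DR.StNFM` (hypothesis) gives the machine, hSIM: `u`, `h`; the set `F` of the
letters of `u` and of all `h a` is finite (`α` is finite): hTRF: `n`, `R'`, `d`; `u.map d`, `(h a).map d`.
Hypotheses: hNFM hSIM hTRF. -/
def StSYF : Prop := ∀ (α : Type) [Finite α] (g : ContextFreeGrammar α),
  ∃ (n : ℕ) (R : Fin n → Fin n → Prop) (u : List (Fin n)) (h : α → List (Fin n)),
    (∀ i j, R i j → R j i) ∧ u ≠ [] ∧ (∀ a, h a ≠ []) ∧
    ∀ w : List α, w ≠ [] → (w ∈ g.language ↔ NC R (u ++ w.flatMap h))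

end Pool.Agent.Helper74.NM
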