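import Pool.Agent.Helper74.NM.Bip
import Pool.Agent.Helper74.DR.All
import Pool.Agent.Helper75.NM.M_TRN
import Pool.Agent.Helper10.NM.M_DEC
import Pool.Agent.Helper5.NM.M_CFN
import Pool.Agent.Helper95.NM.M_GA
import Pool.Agent.Helper42.NM.M_GB
import Pool.Agent.Helper87.NM.M_STP
import Pool.Agent.Helper29.NM.M_BLK
import Pool.Agent.Helper94.NM.M_RUN
import Pool.Agent.Helper72.NM.M_COM
import Pool.Agent.Helper2.NM.M_LOC
import Pool.Agent.Helper39.NM.M_DAB
import Pool.Agent.Helper15.NM.M_DBD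
import Pool.Agent.Helper22.NM.M_DCC
import Pool.Agent.Helper26.NM.M_DHH
import Pool.Agent.Helper40.NM.M_DYY
import Pool.Agent.Helper66.NM.M_ALL
import Pool.Agent.Helper51.NM.M_SIM

/-!
# Project NM (MP_26f0da_lc): the theorem without hypotheses
-/

set_option autoImplicit false

namespace Pool.Agent.Helper74.NM

theorem hTRN : StTRN := Pool.Agent.Helper75.NM.hTRN
theorem hDEC : StDEC := Pool.Agent.Helper10.NM.hDEC hTRN
theorem hCFN : StCFN := Pool.Agent.Helper5.NM.hCFN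
theorem hGA : StGA := Pool.Agent.Helper95.NM.hGA
theorem hGB : StGB := Pool.Agent.Helper42.NM.hGB
theorem hSTP : StSTP := Pool.Agent.Helper87.NM.hSTP hGA hGB
theorem hBLK : StBLK := Pool.Agent.Helper29.NM.hBLK hSTP
theorem hRUN : StRUN := Pool.Agent.Helper94.NM.hRUN hBLK
theorem hCOM : StCOM := Pool.Agent.Helper72.NM.hCOM hGA hGB
theorem hLOC : StLOC := Pool.Agent.Helper2.NM.hLOC
theorem hDAB : StDAB := Pool.Agent.Helper39.NM.hDAB
theorem hDBD : StDBD := Pool.Agent.Helper15.NM.hDBD hGA hSTP hDAB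
theorem hDCC : StDCC := Pool.Agent.Helper22.NM.hDCC hGA hSTP hDAB hDBD
theorem hDHH : StDHH := Pool.Agent.Helper26.NM.hDHH hGA hSTP hDAB hDBD
theorem hDYY : StDYY := Pool.Agent.Helper40.NM.hDYY hGA hSTP hDAB hDBD
theorem hALL : StALL := Pool.Agent.Helper66.NM.hALL hLOC hDAB hGB hDCC hDHH hDYY
theorem hSIM : StSIM := Pool.Agent.Helper51.NM.hSIM hTRN hDEC hRUN hCOM hALL

theorem main_all :
    ∃ (n : ℕ) (Γ : SimpleGraph (Fin n)), Γ.IsBipartite ∧
      (∃ g : ContextFreeGrammar (Fin n), g.language = {w | NC Γ.Adj w}) ∧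
      (∀ (α : Type) [Fintype α] (g : ContextFreeGrammar α),
        ∃ (u v : List (Fin n)) (h : α → List (Fin n)),
          ∀ w : List α, w ≠ [] → (w ∈ g.language ↔ NC Γ.Adj (u ++ (w.flatMap h ++ v)))) ∧
      ((∀ (α : Type) [Fintype α] (g : ContextFreeGrammar α), DR.InL {w | w ∈ g.language}) ↔
        DR.InL {w | NC Γ.Adj w}) :=
  main_bip (hSYB DR.hNFM hSIM) hCFN DR.hNFM DR.hGAM DR.hEMB DR.hAUB DR.hAUE DR.hCFP

end Pool.Agent.Helper74.NM
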