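import Mathlib

/-!
# Noncrossing perfect matchings of the letters of a word: definition
-/

set_option autoImplicit false

namespace Pool.Agent.Helper74.NM

/-- `NC R w`: the positions of the word `w` have a noncrossing perfect matching such that `R x y` for
the letters `x`, `y` of every matched pair (`x` to the left of `y`). -/
inductive NC {G : Type} (R : G → G → Prop) : List G → Prop
  | nil : NC R []
  | wrap (x y : G) (u v : List G) : R x y → NC R u → NC R v → NC R (x :: (u ++ y :: v))

end Pool.Agent.Helper74.NM
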