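import Pool.Agent.Helper74.NM.Fin

/-!
# Project NM (MP_26f0da_lc): the relation is the adjacency of a bipartite graph
-/

set_option autoImplicit false

namespace Pool.Agent.Helper74.NM

/-- The class of a letter. -/
def zcol {W : Type} : Zt W → Bool
  | .c _ => true
  | .s _ => false
  | .b _ => false

open Classical in
/-- The class of a letter. -/
noncomputable def col {W : Type} : Lt W → Bool
  | .o z => zcol z
  | .k z => !(zcol z)
  | .x _ => true
  | .y _ => false
  | .f1 _ => true
  | .f2 _ => false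
  | .f3 _ => false
  | .e _ j => decide (j = 0 ∨ Odd j)

theorem us_cells {W : Type} (rk : W → Bool) (l : List W) (j : ℕ) (z : Zt W)
    (h : (l.flatMap fun X => [Zt.s X, Zt.c (rk X)])[j]? = some z) :
    (Even j → zcol z = false) ∧ (Odd j → zcol z = true) := by
  induction l generalizing j with
  | nil => simp at h
  | cons X l ih =>
    rw [List.flatMap_cons, List.cons_append, List.cons_append, List.nil_append] at h
    rcases j with _ | _ | j
    · simp only [List.getElem?_cons_zero, Option.some.injEq] at h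
      subst h
      exact ⟨fun _ => rfl, fun h => by simp at h⟩
    · simp only [zero_add, List.getElem?_cons_succ, List.getElem?_cons_zero,
        Option.some.injEq] at h
      subst h
      exact ⟨fun h => by simp at h, fun _ => rfl⟩
    · simp only [List.getElem?_cons_succ] at h
      have := ih j h
      refine ⟨fun h => this.1 ?_, fun h => this.2 ?_⟩
      · have h' : Even (j + 2) := h
        rw [Nat.even_add] at h'
        exact h'.2 (by decide)
      · have h' : Odd (j + 2) := h
        rw [Nat.odd_add] at h'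
        exact h'.2 (by decide)

theorem us_col {W : Type} (rk : W → Bool) (g : W × List W) (j : ℕ) (z : Zt W)
    (h : (Us rk g)[j]? = some z) : zcol z = !(decide (j = 0 ∨ Odd j)) := by
  rcases j with _ | j
  · simp only [Us, List.getElem?_cons_zero, Option.some.injEq] at h
    subst h
    simp [zcol]
  · simp only [Us, List.getElem?_cons_succ] at h
    have := us_cells rk _ j z h
    rcases Nat.even_or_odd j with h1 | h1
    · have h2 : Odd (j + 1) := h1.add_one
      simp [this.1 h1, h2]
    · have h2 : ¬ Odd (j + 1) := by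
        rw [Nat.not_odd_iff_even]
        exact h1.add_one
      simp [this.2 h1, h2]

theorem col_ne {W : Type} (rk : W → Bool) (a b : Lt W) (h : P rk a b) : col a = !(col b) := by
  rcases a with z | z | g | g | g | g | g | ⟨g, j⟩ <;>
    rcases b with z' | z' | g' | g' | g' | g' | g' | ⟨g', j'⟩ <;> try exact h.elim
  · have : z = z' := h
    simp [col, this]
  · have := us_col rk g' j' z h
    rw [col, col, this]
  · rfl
  · rfl
  · have : z' = .c (rk g.1) := h
    simp [col, zcol, this]
  · rfl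
  · have : z' = .s g.1 := h
    simp [col, zcol, this]
  · have : z' = .b false := h
    simp [col, zcol, this]
  · have : g = g' ∧ j = 0 := h
    simp [col, this.2]
  · have : g = g' ∧ j' = j + 1 ∧ Odd j := h
    obtain ⟨_, rfl, hj⟩ := this
    have h2 : ¬ Odd (j + 1) := by
      rw [Nat.not_odd_iff_even]
      exact hj.add_one
    simp [col, hj, h2]

/-- Finitely many letters: the relation becomes the adjacency of a bipartite graph. -/
theorem trb (G : Type) (R : G → G → Prop) (c : G → Bool) (hs : ∀ x y, R x y → R y x)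
    (hc : ∀ x y, R x y → c x = !(c y)) (F : Set G) (hF : F.Finite) :
    ∃ (n : ℕ) (Γ : SimpleGraph (Fin n)) (d : G → Fin n), Γ.IsBipartite ∧
      ∀ w : List G, (∀ x ∈ w, x ∈ F) → (NC R w ↔ NC Γ.Adj (w.map d)) := by
  classical
  obtain ⟨n, d, hd⟩ : ∃ (n : ℕ) (d : G → Fin n), Set.InjOn d F := by
    let e := hF.toFinset.equivFin
    refine ⟨hF.toFinset.card + 1, fun x => if h : x ∈ hF.toFinset then (e ⟨x, h⟩).castSucc
      else Fin.last _, ?_⟩
    intro x hx y hy hxy
    have hx' : x ∈ hF.toFinset := hF.mem_toFinset.2 hx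
    have hy' : y ∈ hF.toFinset := hF.mem_toFinset.2 hy
    simp only [hx', hy', dif_pos] at hxy
    have h1 := e.injective (Fin.castSucc_injective _ hxy)
    exact congrArg Subtype.val h1
  have hne : ∀ x y, R x y → c x ≠ c y := by
    intro x y h e
    have := hc x y h
    rw [e] at this
    cases h' : c y <;> rw [h'] at this <;> simp at this
  let Γ : SimpleGraph (Fin n) :=
    { Adj := fun i j => ∃ x ∈ F, ∃ y ∈ F, d x = i ∧ d y = j ∧ R x y
      symm := ⟨fun i j ⟨x, hx, y, hy, h1, h2, h3⟩ => ⟨y, hy, x, hx, h2, h1, hs _ _ h3⟩⟩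
      loopless := ⟨fun i ⟨x, hx, y, hy, h1, h2, h3⟩ => by
        have : x = y := hd hx hy (h1.trans h2.symm)
        subst this
        exact hne _ _ h3 rfl⟩ }
  refine ⟨n, Γ, d, ?_, ?_⟩
  · let C : Fin n → Bool := fun i => decide (∃ x ∈ F, d x = i ∧ c x = true)
    have hC : ∀ x ∈ F, C (d x) = c x := by
      intro x hx
      cases h : c x
      · simp only [C, decide_eq_false_iff_not]
        rintro ⟨y, hy, h1, h2⟩
        rw [hd hy hx h1, h] at h2
        exact Bool.false_ne_true h2
      · simp only [C, decide_eq_true_eq]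
        exact ⟨x, hx, rfl, h⟩
    have hcol : Γ.Coloring Bool := SimpleGraph.Coloring.mk C (by
      rintro i j ⟨x, hx, y, hy, h1, h2, h3⟩
      rw [← h1, ← h2, hC x hx, hC y hy]
      exact hne _ _ h3)
    have := hcol.colorable
    simpa using this
  · intro w hw
    constructor
    · intro h
      induction h with
      | nil => exact NC.nil
      | wrap x y u v hR _ _ ihu ihv =>
        simp only [List.map_cons, List.map_append]
        refine NC.wrap _ _ _ _ ⟨x, hw _ (by simp), y, hw _ (by simp), rfl, rfl, hR⟩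
          (ihu fun a ha => hw a (by simp [ha])) (ihv fun a ha => hw a (by simp [ha]))
    · intro h
      generalize hw' : w.map d = w' at h
      induction h generalizing w with
      | nil =>
        rw [List.map_eq_nil_iff] at hw'
        rw [hw']; exact NC.nil
      | wrap i j u' v' hR _ _ ihu ihv =>
        obtain ⟨x, w1, rfl, hx, h1⟩ := List.map_eq_cons_iff.1 hw'
        obtain ⟨u, w2, rfl, hu, h2⟩ := List.map_eq_append_iff.1 h1
        obtain ⟨y, v, rfl, hy, hv⟩ := List.map_eq_cons_iff.1 h2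
        obtain ⟨x', hx', y', hy', e1, e2, hR'⟩ := hR
        have hxF : x ∈ F := hw x (by simp)
        have hyF : y ∈ F := hw y (by simp)
        have ex : x' = x := hd hx' hxF (by rw [e1, hx])
        have ey : y' = y := hd hy' hyF (by rw [e2, hy])
        rw [ex, ey] at hR'
        exact NC.wrap _ _ _ _ hR' (ihu u (fun a ha => hw a (by simp [ha])) hu)
          (ihv v (fun a ha => hw a (by simp [ha])) hv)

/-- The statement SYF with a bipartite graph. -/
def StSYB : Prop := ∀ (α : Type) [Finite α] (g : ContextFreeGrammar α),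
  ∃ (n : ℕ) (Γ : SimpleGraph (Fin n)) (u : List (Fin n)) (h : α → List (Fin n)),
    Γ.IsBipartite ∧ u ≠ [] ∧ (∀ a, h a ≠ []) ∧
    ∀ w : List α, w ≠ [] → (w ∈ g.language ↔ NC Γ.Adj (u ++ w.flatMap h))

theorem hSYB (hNFM : DR.StNFM) (hSIM : StSIM) : StSYB := by
  intro α _ g
  obtain ⟨W, hW, rk, Pm, S, hP, hL⟩ := hNFM α g
  obtain ⟨u, h, hu, hh, hsim⟩ := hSIM α W rk Pm S hP
  have hF : ({x | x ∈ u} ∪ ⋃ a, {x | x ∈ h a} : Set (Lt W)).Finite :=
    Set.Finite.union (List.finite_toSet u) (Set.finite_iUnion fun a => List.finite_toSet (h a))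
  obtain ⟨n, Γ, d, hb, hNC⟩ := trb (Lt W) (fun a b => P rk a b ∨ P rk b a) col
    (fun x y hxy => hxy.symm) (by
      rintro x y (h | h)
      · exact col_ne rk x y h
      · rw [col_ne rk y x h, Bool.not_not]) _ hF
  refine ⟨n, Γ, u.map d, fun a => (h a).map d, hb, ?_, ?_, ?_⟩
  · intro h0
    exact hu (List.map_eq_nil_iff.1 h0)
  · intro a h0
    exact hh a (List.map_eq_nil_iff.1 h0)
  · intro w hw
    rw [hL w hw, hsim w, hNC]
    · rw [List.map_append, List.map_flatMap]
    · intro x hx
      rcases List.mem_append.1 hx with hx | hx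
      · exact Or.inl hx
      · obtain ⟨a, _, ha⟩ := List.mem_flatMap.1 hx
        exact Or.inr (Set.mem_iUnion.2 ⟨a, ha⟩)

theorem main_bip (hSYB : StSYB) (hCFN : StCFN) (hNFM : DR.StNFM) (hGAM : DR.StGAM)
    (hEMB : DR.StEMB) (hAUB : DR.StAUB) (hAUE : DR.StAUE) (hCFP : DR.StCFP) :
    ∃ (n : ℕ) (Γ : SimpleGraph (Fin n)), Γ.IsBipartite ∧
      (∃ g : ContextFreeGrammar (Fin n), g.language = {w | NC Γ.Adj w}) ∧
      (∀ (α : Type) [Fintype α] (g : ContextFreeGrammar α),
        ∃ (u v : List (Fin n)) (h : α → List (Fin n)),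
          ∀ w : List α, w ≠ [] → (w ∈ g.language ↔ NC Γ.Adj (u ++ (w.flatMap h ++ v)))) ∧
      ((∀ (α : Type) [Fintype α] (g : ContextFreeGrammar α), DR.InL {w | w ∈ g.language}) ↔
        DR.InL {w | NC Γ.Adj w}) := by
  obtain ⟨g₀, hg₀⟩ := hCFP Bool
  obtain ⟨n, Γ, u, h, hb, hu, hh, hw⟩ := hSYB (Option (Bool × Bool)) g₀
  obtain ⟨g₁, hg₁⟩ := hCFN n Γ.Adj
  have red : ∀ (α : Type) [Fintype α] (g : ContextFreeGrammar α),
      ∃ (u' v' : List (Fin n)) (h' : α → List (Fin n)), u' ≠ [] ∧ (∀ a, h' a ≠ []) ∧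
        ∀ w : List α, w ≠ [] → (w ∈ g.language ↔ NC Γ.Adj (u' ++ (w.flatMap h' ++ v'))) := by
    intro α _ g
    obtain ⟨u₀, v₀, h₀, hu₀, hh₀, hw₀⟩ := DR.reduction hNFM hGAM hEMB Bool α g
    refine ⟨u ++ u₀.flatMap h, v₀.flatMap h, fun a => (h₀ a).flatMap h, ?_, ?_, ?_⟩
    · intro e
      exact hu (List.append_eq_nil_iff.1 e).1
    · intro a e
      rw [List.flatMap_eq_nil_iff] at e
      obtain ⟨b, hb⟩ := List.exists_mem_of_ne_nil _ (hh₀ a)
      exact hh b (e b hb)
    · intro w hne
      have h1 : u₀ ++ (w.flatMap h₀ ++ v₀) ≠ [] := fun e => hu₀ (List.append_eq_nil_iff.1 e).1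
      rw [hw₀ w hne, ← hg₀, hw _ h1]
      have e : u ++ (u₀ ++ (w.flatMap h₀ ++ v₀)).flatMap h =
          u ++ u₀.flatMap h ++ ((w.flatMap fun a => (h₀ a).flatMap h) ++ v₀.flatMap h) := by
        rw [List.flatMap_append, List.flatMap_append, List.flatMap_assoc, List.append_assoc]
      rw [e]
  refine ⟨n, Γ, hb, ⟨g₁, Set.ext hg₁⟩, ?_, ?_, ?_⟩
  · intro α _ g
    obtain ⟨u', v', h', _, _, hw'⟩ := red α g
    exact ⟨u', v', h', hw'⟩
  · intro hQ
    have := hQ (Fin n) g₁
    have e : {w | w ∈ g₁.language} = {w | NC Γ.Adj w} := Set.ext hg₁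
    rwa [e] at this
  · intro hL α _ g
    obtain ⟨u', v', h', hu', hh', hw'⟩ := red α g
    have h1 := hAUB α _ {w | NC Γ.Adj w} u' v' h' hu' hh' hL
    exact hAUE α _ _ (fun w hne => (hw' w hne).symm) h1

end Pool.Agent.Helper74.NM
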