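import Pool.Agent.Helper74.NM.St
import Pool.Agent.Helper74.DR.Fin

/-!
# Project NM (MP_26f0da_lc): the final assembly
-/

set_option autoImplicit false

namespace Pool.Agent.Helper74.NM

theorem main (hSYF : StSYF) (hCFN : StCFN) (hNFM : DR.StNFM) (hGAM : DR.StGAM) (hEMB : DR.StEMB)
    (hAUB : DR.StAUB) (hAUE : DR.StAUE) (hCFP : DR.StCFP) :
    ∃ (n : ℕ) (R : Fin n → Fin n → Prop), (∀ i j, R i j → R j i) ∧
      (∃ g : ContextFreeGrammar (Fin n), g.language = {w | NC R w}) ∧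
      (∀ (α : Type) [Fintype α] (g : ContextFreeGrammar α),
        ∃ (u v : List (Fin n)) (h : α → List (Fin n)),
          ∀ w : List α, w ≠ [] → (w ∈ g.language ↔ NC R (u ++ (w.flatMap h ++ v)))) ∧
      ((∀ (α : Type) [Fintype α] (g : ContextFreeGrammar α), DR.InL {w | w ∈ g.language}) ↔
        DR.InL {w | NC R w}) := by
  obtain ⟨g₀, hg₀⟩ := hCFP Bool
  obtain ⟨n, R, u, h, hsym, hu, hh, hw⟩ := hSYF (Option (Bool × Bool)) g₀
  obtain ⟨g₁, hg₁⟩ := hCFN n R
  have red : ∀ (α : Type) [Fintype α] (g : ContextFreeGrammar α),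
      ∃ (u' v' : List (Fin n)) (h' : α → List (Fin n)), u' ≠ [] ∧ (∀ a, h' a ≠ []) ∧
        ∀ w : List α, w ≠ [] → (w ∈ g.language ↔ NC R (u' ++ (w.flatMap h' ++ v'))) := by
    intro α _ g
    obtain ⟨u₀, v₀, h₀, hu₀, hh₀, hw₀⟩ := DR.reduction hNFM hGAM hEMB Bool α g
    refine ⟨u ++ u₀.flatMap h, v₀.flatMap h, fun a => (h₀ a).flatMap h, ?_, ?_, ?_⟩
    · intro e
      exact hu (List.append_eq_nil_iff.1 e).1
    · intro a e
      rw [List.flatMap_eq_nil_iff] at e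
      obtain ⟨b, hb⟩ := List.exists_mem_of_ne_nil _ (hh₀ a)
      exact hh b (e b hb)
    · intro w hne
      have h1 : u₀ ++ (w.flatMap h₀ ++ v₀) ≠ [] := fun e => hu₀ (List.append_eq_nil_iff.1 e).1
      rw [hw₀ w hne, ← hg₀, hw _ h1]
      have e : u ++ (u₀ ++ (w.flatMap h₀ ++ v₀)).flatMap h =
          u ++ u₀.flatMap h ++ ((w.flatMap fun a => (h₀ a).flatMap h) ++ v₀.flatMap h) := by
        rw [List.flatMap_append, List.flatMap_append, List.flatMap_assoc, List.append_assoc]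
      rw [e]
  refine ⟨n, R, hsym, ⟨g₁, Set.ext hg₁⟩, ?_, ?_, ?_⟩
  · intro α _ g
    obtain ⟨u', v', h', _, _, hw'⟩ := red α g
    exact ⟨u', v', h', hw'⟩
  · intro hQ
    have := hQ (Fin n) g₁
    have e : {w | w ∈ g₁.language} = {w | NC R w} := Set.ext hg₁
    rwa [e] at this
  · intro hL α _ g
    obtain ⟨u', v', h', hu', hh', hw'⟩ := red α g
    have h1 := hAUB α _ {w | NC R w} u' v' h' hu' hh' hL
    exact hAUE α _ _ (fun w hne => (hw' w hne).symm) h1

end Pool.Agent.Helper74.NM
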